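import Pool.Agent.H2M5.Cert
import Pool.Agent.H2M5.Cert14
import Pool.Agent.Mnh583S.B13
import Pool.Agent.Mnh583.Main

/-! The orders of the maximally nonhamiltonian graphs of girth five. -/

set_option autoImplicit false

namespace Pool.Mnh583S

open Pool.Mnh583 Pool.H2M5

/-- Maximally nonhamiltonian of girth five. -/
def Mnh5 {n : ℕ} (G : SimpleGraph (Fin n)) : Prop :=
  ¬ G.IsHamiltonian ∧
    (∀ u v : Fin n, u ≠ v → ¬ G.Adj u v → (G ⊔ SimpleGraph.edge u v).IsHamiltonian) ∧ G.girth = 5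

/-- The mask contains only pairs of the path. -/
def pthOk (n I : ℕ) : Bool :=
  (List.range 16).all fun x => (List.range 16).all fun y => !tb I x y ||
    (Nat.beq y (x + 1) && Nat.blt y n) || (Nat.beq x (y + 1) && Nat.blt x n)

theorem compat_path {n I : ℕ} {A : ℕ → ℕ → Prop} (hA : Hyp n A)
    (hp : ∀ i, i + 1 < n → A i (i + 1)) (h : pthOk n I = true) : Compat A I 0 := by
  refine ⟨fun x y hx hy hxy => ?_, fun x y _ _ hxy => ?_⟩
  · simp only [pthOk, List.all_eq_true, List.mem_range, Bool.or_eq_true, Bool.and_eq_true,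
      Nat.beq_eq, Nat.blt_eq] at h
    rcases h x hx y hy with (h1 | ⟨h1, h2⟩) | ⟨h1, h2⟩
    · rw [hxy] at h1
      simp at h1
    · subst h1
      exact hp x h2
    · subst h1
      exact hA.symm _ _ (hp y h2)
  · simp [tb] at hxy

theorem no_graph {n I : ℕ} (hI : pthOk n I = true)
    (hno : ∀ A : ℕ → ℕ → Prop, Hyp n A → ∀ p ∈ [(I, 0)], ¬ Compat A p.1 p.2)
    (G : SimpleGraph (Fin n)) (hG : Mnh5 G) : False := by
  obtain ⟨hG, hM, hg⟩ := hG
  obtain ⟨h5, tri, sq⟩ := girth_five hg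
  have pairs : ∀ u v, u ≠ v → ¬ G.Adj u v → HP G (fun _ => True) u v := fun u v huv hadj =>
    HP_of_ham (by omega) huv hadj hG (hM u v huv hadj)
  obtain ⟨A, hA, hp⟩ := hyp_of_graph h5 tri sq pairs hG
  exact hno A hA (I, 0) (by simp) (compat_path hA hp hI)

theorem exists_thirteen : ∃ G : SimpleGraph (Fin 13), Mnh5 G := by
  obtain ⟨x, t0, t1, t2, h⟩ := B13.good
  obtain ⟨G, h1, h2, h3⟩ := of_good h (Fintype.card_fin 13)
    (five_of_ok (T := B13.T) (n := 13) (a := 0) (b := 1) (c := 2) (d := 3) (e := 4)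
      (by decide +kernel))
  exact ⟨G, h1, h2, h3⟩

theorem spectrum (n : ℕ) : (∃ G : SimpleGraph (Fin n), ¬ G.IsHamiltonian ∧
    (∀ u v : Fin n, u ≠ v → ¬ G.Adj u v → (G ⊔ SimpleGraph.edge u v).IsHamiltonian) ∧
    G.girth = 5) ↔ n = 10 ∨ n = 13 ∨ 15 ≤ n := by
  constructor
  · rintro ⟨G, hG⟩
    have h5 : 5 ≤ n := (girth_five hG.2.2).1
    by_contra hn
    have h1 : n = 5 ∨ n = 6 ∨ n = 7 ∨ n = 8 ∨ n = 9 ∨ n = 11 ∨ n = 12 ∨ n = 14 := by omega
    rcases h1 with rfl | rfl | rfl | rfl | rfl | rfl | rfl | rfl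
    · exact no_graph (by decide +kernel) (fun A hA => no5 hA) G hG
    · exact no_graph (by decide +kernel) (fun A hA => no6 hA) G hG
    · exact no_graph (by decide +kernel) (fun A hA => no7 hA) G hG
    · exact no_graph (by decide +kernel) (fun A hA => no8 hA) G hG
    · exact no_graph (by decide +kernel) (fun A hA => no9 hA) G hG
    · exact no_graph (by decide +kernel) (fun A hA => no11 hA) G hG
    · exact no_graph (by decide +kernel) (fun A hA => no12 hA) G hG
    · exact no_graph (by decide +kernel) (fun A hA => no14 hA) G hG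
  · rintro (rfl | rfl | h)
    · exact Pool.Mnh583.main 10 (Or.inl rfl)
    · exact exists_thirteen
    · exact Pool.Mnh583.main n (Or.inr h)

end Pool.Mnh583S
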